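import Pool.Agent.Lib.MP_77f3ac_co_h56.Exchange
import Pool.Agent.Lib.MP_77f3ac_co_h39.NoWin

/-!
# MP_77f3ac_co: the answer to a double threat

Maker's quiet move `z` creates a double threat at `m` (two lines `{m, a}`, `{m, b}`); Breaker
answers `m`.  The potential part and the lower bound of the sizes.
-/

set_option autoImplicit false

namespace Torus103
open Finset
variable {P : Type*} [DecidableEq P]

namespace A1

open Q39 hiding conn_singleton conn_insert w_ge Phi_ge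
open X56

/-- the clusters whose lines through `m` are exactly `E` -/
theorem fam {𝓛 : Finset (Finset P)} {F : Finset P} {m : P} {f : Finset (Finset P) → ℚ}
    (hf : ∀ C, 0 ≤ f C) {E : Finset (Finset P)} (hE : ∀ L ∈ E, L ∈ 𝓛 ∧ m ∈ L)
    {𝓕 : Finset (Finset (Finset P))}
    (h𝓕 : ∀ C ∈ 𝓕, C ⊆ 𝓛.filter (fun L => m ∉ L) ∧ Conn F (C ∪ E)) :
    ∑ C ∈ 𝓕, f (C ∪ E) ≤
      ∑ D ∈ (T F 𝓛).filter (fun D => D.filter (fun L => m ∈ L) = E), f D := by
  have key : ∀ C ∈ 𝓕, (C ∪ E).filter (fun L => m ∉ L) = C := by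
    intro C hC
    ext L
    rw [mem_filter, mem_union]
    constructor
    · rintro ⟨h1 | h1, h2⟩
      · exact h1
      · exact absurd (hE L h1).2 h2
    · intro h1
      exact ⟨Or.inl h1, (mem_filter.1 ((h𝓕 C hC).1 h1)).2⟩
  have hinj : Set.InjOn (fun C : Finset (Finset P) => C ∪ E) 𝓕 := by
    intro C hC D hD h
    have h' : C ∪ E = D ∪ E := h
    rw [← key C hC, ← key D hD, h']
  have hsum : ∑ C ∈ 𝓕, f (C ∪ E) = ∑ D ∈ 𝓕.image (fun C => C ∪ E), f D := by
    rw [sum_image hinj]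
  rw [hsum]
  refine sum_le_sum_of_subset_of_nonneg ?_ fun C _ _ => hf C
  intro D hD
  obtain ⟨C, hC, rfl⟩ := mem_image.1 hD
  obtain ⟨h1, h2⟩ := h𝓕 C hC
  rw [mem_filter, mem_T]
  refine ⟨⟨union_subset (h1.trans (filter_subset _ _)) fun L hL => (hE L hL).1, h2⟩, ?_⟩
  ext L
  rw [mem_filter, mem_union]
  constructor
  · rintro ⟨h3 | h3, h4⟩
    · exact absurd h4 (mem_filter.1 (h1 h3)).2
    · exact h3
  · intro h3
    exact ⟨Or.inr h3, (hE L h3).2⟩

/-- lower bound of a sum over the clusters by the clusters avoiding `m` and their extensions by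
`L₁` and `L₂` -/
theorem sum_ge4 {𝓛 : Finset (Finset P)} {F : Finset P} {z m : P} {L₁ L₂ : Finset P}
    (h₁ : L₁ ∈ 𝓛) (h₂ : L₂ ∈ 𝓛) (hm₁ : m ∈ L₁) (hm₂ : m ∈ L₂) (hmF : m ∈ F)
    (hz₁ : z ∈ L₁) (hne : L₁ ≠ L₂) {f : Finset (Finset P) → ℚ} (hf : ∀ C, 0 ≤ f C) :
    f {L₁} + f {L₂} + f {L₁, L₂} + ∑ C ∈ T F (𝓛.filter (fun L => m ∉ L)),
      (f C + if z ∈ un F C then f (C ∪ {L₁}) + f (C ∪ {L₁, L₂}) +
        (if z ∈ L₂ then f (C ∪ {L₂}) else 0) else 0) ≤ ∑ C ∈ T F 𝓛, f C := by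
  set 𝓜 := 𝓛.filter (fun L => m ∉ L) with h𝓜
  set U := (T F 𝓜).filter (fun C => z ∈ un F C) with hU
  have hU1 : ∀ C ∈ U, C ⊆ 𝓜 ∧ Conn F C ∧ z ∈ un F C := by
    intro C hC
    obtain ⟨hC1, hC2⟩ := mem_filter.1 hC
    exact ⟨(mem_T.1 hC1).1, (mem_T.1 hC1).2, hC2⟩
  have hemp : (∅ : Finset (Finset P)) ∉ U := fun h => by
    obtain ⟨L, hL⟩ := (hU1 ∅ h).2.1.1
    exact notMem_empty _ hL
  -- connectedness
  have c12 : Conn F ({L₁, L₂} : Finset (Finset P)) :=
    conn_insert (conn_singleton F L₂) (mem_un.2 ⟨⟨L₂, mem_singleton_self _, hm₂⟩, hmF⟩) hm₁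
  have u1 : ∀ C : Finset (Finset P), C ∪ {L₁} = insert L₁ C := fun C => by
    rw [union_comm, ← insert_eq]
  have u2 : ∀ C : Finset (Finset P), C ∪ {L₂} = insert L₂ C := fun C => by
    rw [union_comm, ← insert_eq]
  have u12 : ∀ C : Finset (Finset P), C ∪ {L₁, L₂} = insert L₂ (insert L₁ C) := fun C => by
    ext x; simp only [mem_union, mem_insert, mem_singleton]; tauto
  -- the four families
  have e0 : ∑ C ∈ T F 𝓜, f C ≤
      ∑ D ∈ (T F 𝓛).filter (fun D => D.filter (fun L => m ∈ L) = ∅), f D := by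
    have := fam (𝓛 := 𝓛) (F := F) (m := m) hf (E := ∅) (by simp) (𝓕 := T F 𝓜) (by
      intro C hC
      rw [union_empty]
      exact mem_T.1 hC)
    simpa only [union_empty] using this
  have e1 : f {L₁} + ∑ C ∈ U, f (C ∪ {L₁}) ≤
      ∑ D ∈ (T F 𝓛).filter (fun D => D.filter (fun L => m ∈ L) = {L₁}), f D := by
    have := fam (𝓛 := 𝓛) (F := F) (m := m) hf (E := {L₁}) (by
      intro L hL
      rw [mem_singleton] at hL
      subst hL
      exact ⟨h₁, hm₁⟩) (𝓕 := insert ∅ U) (by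
      intro C hC
      rcases mem_insert.1 hC with rfl | hC
      · rw [empty_union]
        exact ⟨empty_subset _, conn_singleton F L₁⟩
      · obtain ⟨a1, a2, a3⟩ := hU1 C hC
        refine ⟨a1, ?_⟩
        rw [u1]
        exact conn_insert a2 a3 hz₁)
    rwa [sum_insert hemp, empty_union] at this
  have e2 : f {L₂} + ∑ C ∈ U, (if z ∈ L₂ then f (C ∪ {L₂}) else 0) ≤
      ∑ D ∈ (T F 𝓛).filter (fun D => D.filter (fun L => m ∈ L) = {L₂}), f D := by
    have := fam (𝓛 := 𝓛) (F := F) (m := m) hf (E := {L₂}) (by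
      intro L hL
      rw [mem_singleton] at hL
      subst hL
      exact ⟨h₂, hm₂⟩) (𝓕 := insert ∅ (U.filter (fun _ => z ∈ L₂))) (by
      intro C hC
      rcases mem_insert.1 hC with rfl | hC
      · rw [empty_union]
        exact ⟨empty_subset _, conn_singleton F L₂⟩
      · rw [mem_filter] at hC
        obtain ⟨a1, a2, a3⟩ := hU1 C hC.1
        refine ⟨a1, ?_⟩
        rw [u2]
        exact conn_insert a2 a3 hC.2)
    rwa [sum_insert (fun h => hemp (mem_filter.1 h).1), empty_union, sum_filter] at this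
  have e3 : f {L₁, L₂} + ∑ C ∈ U, f (C ∪ {L₁, L₂}) ≤
      ∑ D ∈ (T F 𝓛).filter (fun D => D.filter (fun L => m ∈ L) = {L₁, L₂}), f D := by
    have := fam (𝓛 := 𝓛) (F := F) (m := m) hf (E := {L₁, L₂}) (by
      intro L hL
      rw [mem_insert, mem_singleton] at hL
      rcases hL with rfl | rfl
      · exact ⟨h₁, hm₁⟩
      · exact ⟨h₂, hm₂⟩) (𝓕 := insert ∅ U) (by
      intro C hC
      rcases mem_insert.1 hC with rfl | hC
      · rw [empty_union]
        exact ⟨empty_subset _, c12⟩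
      · obtain ⟨a1, a2, a3⟩ := hU1 C hC
        refine ⟨a1, ?_⟩
        rw [u12]
        refine conn_insert (conn_insert a2 a3 hz₁) (x := m) ?_ hm₂
        exact mem_un.2 ⟨⟨L₁, mem_insert_self _ _, hm₁⟩, hmF⟩)
    rwa [sum_insert hemp, empty_union] at this
  -- the fibres
  have hfib : ∑ E ∈ ({∅, {L₁}, {L₂}, {L₁, L₂}} : Finset (Finset (Finset P))),
      ∑ D ∈ (T F 𝓛).filter (fun D => D.filter (fun L => m ∈ L) = E), f D ≤
      ∑ C ∈ T F 𝓛, f C := by
    refine sum_fiberwise_le_sum_of_sum_fiber_nonneg fun E _ => sum_nonneg fun D _ => hf D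
  have n1 : ({L₂} : Finset (Finset P)) ≠ {L₁, L₂} := by
    intro h
    have : L₁ ∈ ({L₂} : Finset (Finset P)) := by rw [h]; exact mem_insert_self _ _
    exact hne (mem_singleton.1 this)
  have n2 : ({L₁} : Finset (Finset P)) ≠ {L₁, L₂} := by
    intro h
    have : L₂ ∈ ({L₁} : Finset (Finset P)) := by
      rw [h]; exact mem_insert_of_mem (mem_singleton_self _)
    exact hne (mem_singleton.1 this).symm
  have n3 : ({L₁} : Finset (Finset P)) ≠ {L₂} := fun h => hne (singleton_injective h)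
  have s1 : ({L₂} : Finset (Finset P)) ∉ ({{L₁, L₂}} : Finset (Finset (Finset P))) := by
    rw [mem_singleton]; exact n1
  have s2 : ({L₁} : Finset (Finset P)) ∉ ({{L₂}, {L₁, L₂}} : Finset (Finset (Finset P))) := by
    rw [mem_insert, mem_singleton]
    rintro (h | h)
    · exact n3 h
    · exact n2 h
  have s3 : (∅ : Finset (Finset P)) ∉
      ({{L₁}, {L₂}, {L₁, L₂}} : Finset (Finset (Finset P))) := by
    rw [mem_insert, mem_insert, mem_singleton]
    rintro (h | h | h)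
    · exact (singleton_nonempty L₁).ne_empty h.symm
    · exact (singleton_nonempty L₂).ne_empty h.symm
    · exact (insert_nonempty L₁ _).ne_empty h.symm
  rw [sum_insert s3, sum_insert s2, sum_insert s1, sum_singleton] at hfib
  have hsplit : ∑ C ∈ T F 𝓜, (f C + if z ∈ un F C then f (C ∪ {L₁}) + f (C ∪ {L₁, L₂}) +
        (if z ∈ L₂ then f (C ∪ {L₂}) else 0) else 0)
      = ∑ C ∈ T F 𝓜, f C + (∑ C ∈ U, f (C ∪ {L₁}) + ∑ C ∈ U, f (C ∪ {L₁, L₂})
        + ∑ C ∈ U, (if z ∈ L₂ then f (C ∪ {L₂}) else 0)) := by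
    rw [sum_add_distrib, ← sum_filter, ← hU, sum_add_distrib, sum_add_distrib]
  rw [hsplit]
  linarith

/-- adding a line with few new free points -/
theorem w_insert_ge {F : Finset P} {C : Finset (Finset P)} {L S : Finset P} {k : ℕ}
    (h : L ∩ F ⊆ un F C ∪ S) (hS : S.card ≤ k) : w F C * (1 / 2) ^ k ≤ w F (insert L C) := by
  have h1 : un F (insert L C) ⊆ un F C ∪ S := by
    intro x hx
    obtain ⟨⟨K, hK, hxK⟩, hxF⟩ := mem_un.1 hx
    rcases mem_insert.1 hK with rfl | hK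
    · exact h (mem_inter.2 ⟨hxK, hxF⟩)
    · exact mem_union_left _ (mem_un.2 ⟨⟨K, hK, hxK⟩, hxF⟩)
  have h2 : (un F (insert L C)).card ≤ (un F C).card + k :=
    (card_le_card h1).trans ((card_union_le _ _).trans (by omega))
  rw [w, ← pow_add]
  exact w_ge h2

/-- the situation: `L₁ = {z, m, a}`, `L₂ = {(z,) m, b}` -/
structure Sit (F : Finset P) (𝓛 : Finset (Finset P)) (z m a b : P) (L₁ L₂ : Finset P) :
    Prop where
  hzF : z ∈ F
  hmF : m ∈ F
  hzm : m ≠ z
  h₁ : L₁ ∈ 𝓛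
  h₂ : L₂ ∈ 𝓛
  hm₁ : m ∈ L₁
  hm₂ : m ∈ L₂
  hz₁ : z ∈ L₁
  ha : L₁ ∩ F.erase z = {m, a}
  hb : L₂ ∩ F.erase z = {m, b}
  hne : L₁ ≠ L₂

section
variable {F : Finset P} {𝓛 : Finset (Finset P)} {z m a b : P} {L₁ L₂ : Finset P}

theorem sub_of {L : Finset P} {c : P} (h : L ∩ F.erase z = {m, c}) : L ∩ F ⊆ {z, m, c} := by
  intro y hy
  by_cases hyz : y = z
  · rw [hyz]; exact mem_insert_self _ _
  · refine mem_insert_of_mem ?_
    rw [← h]
    exact mem_inter.2 ⟨(mem_inter.1 hy).1, mem_erase.2 ⟨hyz, (mem_inter.1 hy).2⟩⟩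

theorem w_one {L : Finset P} {c : P} (h : L ∩ F.erase z = {m, c}) {C : Finset (Finset P)}
    (hz : z ∈ un F C) : w F C * (1 / 2) ^ 2 ≤ w F (insert L C) := by
  refine w_insert_ge (S := {m, c}) ?_ card_le_two
  intro y hy
  rcases mem_insert.1 (sub_of h hy) with rfl | h1
  · exact mem_union_left _ hz
  · exact mem_union_right _ h1

theorem w_two (S : Sit F 𝓛 z m a b L₁ L₂) {C : Finset (Finset P)}
    (hz : z ∈ un F C) : w F C * (1 / 2) ^ 3 ≤ w F (insert L₂ (insert L₁ C)) := by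
  have h1 := w_one S.ha hz
  have h2 : w F (insert L₁ C) * (1 / 2) ^ 1 ≤ w F (insert L₂ (insert L₁ C)) := by
    refine w_insert_ge (S := {b}) ?_ (card_singleton b).le
    intro y hy
    rcases mem_insert.1 (sub_of S.hb hy) with rfl | h1
    · refine mem_union_left _ ?_
      obtain ⟨⟨K, hK, hzK⟩, hzF⟩ := mem_un.1 hz
      exact mem_un.2 ⟨⟨K, mem_insert_of_mem hK, hzK⟩, hzF⟩
    · rcases mem_insert.1 h1 with rfl | h3
      · refine mem_union_left _ ?_
        exact mem_un.2 ⟨⟨L₁, mem_insert_self _ _, S.hm₁⟩, S.hmF⟩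
      · exact mem_union_right _ h3
  calc w F C * (1 / 2) ^ 3 = (w F C * (1 / 2) ^ 2) * (1 / 2) ^ 1 := by ring
    _ ≤ w F (insert L₁ C) * (1 / 2) ^ 1 := by gcongr
    _ ≤ _ := h2

/-- the factor of a cluster at `x` -/
def chi (F : Finset P) (x : P) (C : Finset (Finset P)) : ℚ := if x ∈ un F C then 2 else 1

theorem chi_pos (F : Finset P) (x : P) (C : Finset (Finset P)) : 0 < chi F x C := by
  unfold chi; split_ifs <;> norm_num

theorem chi_mono {x : P} {C D : Finset (Finset P)} (h : C ⊆ D) : chi F x C ≤ chi F x D := by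
  unfold chi
  by_cases h1 : x ∈ un F C
  · have h2 : x ∈ un F D := by
      obtain ⟨⟨K, hK, hxK⟩, hxF⟩ := mem_un.1 h1
      exact mem_un.2 ⟨⟨K, h hK, hxK⟩, hxF⟩
    rw [if_pos h1, if_pos h2]
  · rw [if_neg h1]; split_ifs <;> norm_num

/-- the term of a cluster in the potential at `x` -/
noncomputable def ft (F : Finset P) (x : P) (C : Finset (Finset P)) : ℚ :=
  al C.card * w F C * chi F x C

theorem ft_nonneg (F : Finset P) (x : P) (C : Finset (Finset P)) : 0 ≤ ft F x C :=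
  mul_nonneg (term_nonneg _ _) (chi_pos _ _ _).le

theorem ft_ge {x : P} {C D : Finset (Finset P)} {n j : ℕ} (hCD : C ⊆ D) (hD : D.card = n)
    (hw : w F C * (1 / 2) ^ j ≤ w F D) : al n * (1 / 2) ^ j * (w F C * chi F x C) ≤ ft F x D := by
  rw [ft, hD]
  have h1 := al_nonneg n
  have h2 := chi_mono (F := F) (x := x) hCD
  have h3 := chi_pos F x C
  have h4 := w_pos F C
  have h5 := w_pos F D
  calc al n * (1 / 2) ^ j * (w F C * chi F x C)
      = al n * (w F C * (1 / 2) ^ j) * chi F x C := by ring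
    _ ≤ al n * w F D * chi F x D := by gcongr

/-- the potential of the old position at `x` -/
theorem Phi_ge (S : Sit F 𝓛 z m a b L₁ L₂) (x : P) :
    ft F x {L₁} + ft F x {L₂} + ft F x {L₁, L₂} + ∑ C ∈ T F (𝓛.filter (fun L => m ∉ L)),
      (al C.card * (w F C * chi F x C) + if z ∈ un F C then
        (al (C.card + 1) * (1 / 2) ^ 2 + al (C.card + 2) * (1 / 2) ^ 3
          + (if z ∈ L₂ then al (C.card + 1) * (1 / 2) ^ 2 else 0)) * (w F C * chi F x C)
        else 0) ≤ Phi F 𝓛 x := by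
  have h0 : Phi F 𝓛 x = ∑ C ∈ T F 𝓛, ft F x C := rfl
  rw [h0]
  refine le_trans ?_ (sum_ge4 S.h₁ S.h₂ S.hm₁ S.hm₂ S.hmF S.hz₁ S.hne (ft_nonneg F x))
  gcongr with C hC
  · rw [ft, mul_assoc]
  · obtain ⟨hC1, hC2⟩ := mem_T.1 hC
    have g1 : L₁ ∉ C := fun h => (mem_filter.1 (hC1 h)).2 S.hm₁
    have g2 : L₂ ∉ C := fun h => (mem_filter.1 (hC1 h)).2 S.hm₂
    have u1 : C ∪ {L₁} = insert L₁ C := by rw [union_comm, ← insert_eq]
    have u2 : C ∪ {L₂} = insert L₂ C := by rw [union_comm, ← insert_eq]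
    have u12 : C ∪ {L₁, L₂} = insert L₂ (insert L₁ C) := by
      ext x; simp only [mem_union, mem_insert, mem_singleton]; tauto
    by_cases hz : z ∈ un F C
    · rw [if_pos hz, if_pos hz, add_mul, add_mul, u1, u2, u12]
      have k1 : (insert L₁ C).card = C.card + 1 := card_insert_of_notMem g1
      have k2 : (insert L₂ C).card = C.card + 1 := card_insert_of_notMem g2
      have k3 : (insert L₂ (insert L₁ C)).card = C.card + 2 := by
        rw [card_insert_of_notMem, k1]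
        rw [mem_insert]
        rintro (h | h)
        · exact S.hne h.symm
        · exact g2 h
      have t1 := ft_ge (x := x) (subset_insert L₁ C) k1 (w_one S.ha hz)
      have t2 := ft_ge (x := x) (subset_insert L₂ C) k2 (w_one S.hb hz)
      have t3 := ft_ge (x := x) ((subset_insert L₁ C).trans (subset_insert L₂ _)) k3 (w_two S hz)
      by_cases hz2 : z ∈ L₂
      · rw [if_pos hz2, if_pos hz2]
        linarith
      · rw [if_neg hz2, if_neg hz2, zero_mul]
        linarith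
    · rw [if_neg hz, if_neg hz]

theorem chi_ge_one (F : Finset P) (x : P) (C : Finset (Finset P)) : 1 ≤ chi F x C := by
  unfold chi; split_ifs <;> norm_num

theorem chi_eq_two {x : P} {C : Finset (Finset P)} (h : x ∈ un F C) : chi F x C = 2 := if_pos h

/-- the values of the three small clusters -/
theorem w_L₁ (S : Sit F 𝓛 z m a b L₁ L₂) : (1 : ℚ) / 8 ≤ w F {L₁} := by
  have h := w_ge (F := F) (C := {L₁}) (k := 3) (by
    rw [un_singleton]
    exact (card_le_card (sub_of S.ha)).trans card_le_three)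
  norm_num at h ⊢
  exact h

theorem w_L₂ (S : Sit F 𝓛 z m a b L₁ L₂) : (1 : ℚ) / 8 ≤ w F {L₂} := by
  have h := w_ge (F := F) (C := {L₂}) (k := 3) (by
    rw [un_singleton]
    exact (card_le_card (sub_of S.hb)).trans card_le_three)
  norm_num at h ⊢
  exact h

theorem w_L₂' (S : Sit F 𝓛 z m a b L₁ L₂) (hz : z ∉ L₂) : (1 : ℚ) / 4 ≤ w F {L₂} := by
  have h := w_ge (F := F) (C := {L₂}) (k := 2) (by
    rw [un_singleton]
    have h1 : L₂ ∩ F = {m, b} := by rw [← S.hb, inter_erase_of_notMem hz]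
    rw [h1]
    exact card_le_two)
  norm_num at h ⊢
  exact h

theorem w_L₁₂ (S : Sit F 𝓛 z m a b L₁ L₂) : (1 : ℚ) / 16 ≤ w F {L₁, L₂} := by
  have h := w_ge (F := F) (C := {L₁, L₂}) (k := 4) (by
    rw [un_pair]
    have h1 : (L₁ ∩ F) ∪ (L₂ ∩ F) ⊆ {z, m, a, b} := by
      intro y hy
      rcases mem_union.1 hy with h | h
      · have h1 := sub_of S.ha h
        simp only [mem_insert, mem_singleton] at h1 ⊢
        tauto
      · have h1 := sub_of S.hb h
        simp only [mem_insert, mem_singleton] at h1 ⊢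
        tauto
    exact (card_le_card h1).trans card_le_four)
  norm_num at h ⊢
  exact h

theorem card_L₁₂ (S : Sit F 𝓛 z m a b L₁ L₂) : ({L₁, L₂} : Finset (Finset P)).card = 2 :=
  card_pair S.hne

/-- the three small clusters at `z` -/
theorem small_z (S : Sit F 𝓛 z m a b L₁ L₂) :
    3 / 4 ≤ ft F z {L₁} + ft F z {L₂} + ft F z {L₁, L₂} := by
  have c1 : chi F z {L₁} = 2 := chi_eq_two (mem_un.2 ⟨⟨L₁, mem_singleton_self _, S.hz₁⟩, S.hzF⟩)
  have c12 : chi F z {L₁, L₂} = 2 :=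
    chi_eq_two (mem_un.2 ⟨⟨L₁, mem_insert_self _ _, S.hz₁⟩, S.hzF⟩)
  have h1 := w_L₁ S
  have h12 := w_L₁₂ S
  have e1 : ft F z {L₁} = w F {L₁} * 2 := by
    rw [ft, c1, card_singleton]; norm_num [al]
  have e12 : ft F z {L₁, L₂} = w F {L₁, L₂} * 4 := by
    rw [ft, c12, card_L₁₂ S]; norm_num [al]; ring
  by_cases hz : z ∈ L₂
  · have c2 : chi F z {L₂} = 2 := chi_eq_two (mem_un.2 ⟨⟨L₂, mem_singleton_self _, hz⟩, S.hzF⟩)
    have h2 := w_L₂ S
    have e2 : ft F z {L₂} = w F {L₂} * 2 := by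
      rw [ft, c2, card_singleton]; norm_num [al]
    rw [e1, e2, e12]
    linarith
  · have h2 := w_L₂' S hz
    have e2 : ft F z {L₂} = w F {L₂} * chi F z {L₂} := by
      rw [ft, card_singleton]; norm_num [al]
    have h3 := chi_ge_one F z {L₂}
    rw [e1, e2, e12]
    nlinarith

/-- the three small clusters at `x` -/
theorem small_x (S : Sit F 𝓛 z m a b L₁ L₂) (x : P) :
    (if z ∈ L₂ then 3 / 8 else 1 / 2) ≤ ft F x {L₁} + ft F x {L₂} + ft F x {L₁, L₂} := by
  have h1 := w_L₁ S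
  have h12 := w_L₁₂ S
  have e1 : ft F x {L₁} = w F {L₁} * chi F x {L₁} := by
    rw [ft, card_singleton]; norm_num [al]
  have e12 : ft F x {L₁, L₂} = 2 * w F {L₁, L₂} * chi F x {L₁, L₂} := by
    rw [ft, card_L₁₂ S]; norm_num [al]
  have e2 : ft F x {L₂} = w F {L₂} * chi F x {L₂} := by
    rw [ft, card_singleton]; norm_num [al]
  have g1 := chi_ge_one F x {L₁}
  have g2 := chi_ge_one F x {L₂}
  have g12 := chi_ge_one F x {L₁, L₂}
  have h2 := w_L₂ S
  have f1 : (1 : ℚ) / 8 ≤ ft F x {L₁} := by rw [e1]; nlinarith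
  have f12 : (1 : ℚ) / 8 ≤ ft F x {L₁, L₂} := by rw [e12]; nlinarith
  split_ifs with hz
  · have f2 : (1 : ℚ) / 8 ≤ ft F x {L₂} := by rw [e2]; nlinarith
    linarith
  · have h2' := w_L₂' S hz
    have f2 : (1 : ℚ) / 4 ≤ ft F x {L₂} := by rw [e2]; nlinarith
    linarith

omit [DecidableEq P] in
theorem card_cases {C : Finset (Finset P)} (hC : C.Nonempty) :
    C.card = 1 ∨ C.card = 2 ∨ C.card = 3 ∨ C.card = 4 ∨ 5 ≤ C.card := by
  have := card_pos.2 hC
  omega

theorem al_big {n : ℕ} (h : 5 ≤ n) : al n = 0 := by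
  unfold al
  split <;> first | omega | rfl

/-- the potential at the mark, line `L₂` not through `z` -/
theorem PhiA_z (S : Sit F 𝓛 z m a b L₁ L₂) (hz : z ∉ L₂) :
    3 / 4 + (2 * Sm F (𝓛.filter (fun L => m ∉ L)) z 1
      + 27 / 8 * Sm F (𝓛.filter (fun L => m ∉ L)) z 2
      + 19 / 4 * Sm F (𝓛.filter (fun L => m ∉ L)) z 3
      + 3 * Sm F (𝓛.filter (fun L => m ∉ L)) z 4
      + Om F (𝓛.filter (fun L => m ∉ L)) z 1 + 2 * Om F (𝓛.filter (fun L => m ∉ L)) z 2
      + 4 * Om F (𝓛.filter (fun L => m ∉ L)) z 3) ≤ Phi F 𝓛 z := by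
  refine le_trans ?_ (Phi_ge S z)
  refine add_le_add (small_z S) ?_
  simp only [Sm_eq, Om_eq, mul_sum, ← sum_add_distrib]
  refine sum_le_sum fun C hC => ?_
  obtain ⟨hC1, hC2⟩ := mem_T.1 hC
  have hw := w_pos F C
  by_cases hm : z ∈ un F C
  · simp only [hm, hz, chi_eq_two hm, if_true, if_false, and_true, not_true_eq_false, and_false]
    rcases card_cases hC2.1 with h | h | h | h | h
    · simp only [h]; norm_num [al]; linarith
    · simp only [h]; norm_num [al]; linarith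
    · simp only [h]; norm_num [al]; linarith
    · simp only [h]; norm_num [al]; linarith
    · have e1 : C.card ≠ 1 := by omega
      have e2 : C.card ≠ 2 := by omega
      have e3 : C.card ≠ 3 := by omega
      have e4 : C.card ≠ 4 := by omega
      simp only [e1, e2, e3, e4, if_false, al_big h, al_big (by omega : 5 ≤ C.card + 1),
        al_big (by omega : 5 ≤ C.card + 2)]
      norm_num
  · have h1 : chi F z C = 1 := if_neg hm
    simp only [hm, h1, and_false, if_false, not_false_eq_true, and_true]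
    rcases card_cases hC2.1 with h | h | h | h | h
    · simp only [h]; norm_num [al]
    · simp only [h]; norm_num [al]
    · simp only [h]; norm_num [al]
    · simp only [h]; norm_num [al]; linarith
    · have e1 : C.card ≠ 1 := by omega
      have e2 : C.card ≠ 2 := by omega
      have e3 : C.card ≠ 3 := by omega
      simp only [e1, e2, e3, if_false, al_big h]
      norm_num

/-- the potential at the mark, both lines through `z` -/
theorem PhiB_z (S : Sit F 𝓛 z m a b L₁ L₂) (hz : z ∈ L₂) :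
    3 / 4 + (5 / 2 * Sm F (𝓛.filter (fun L => m ∉ L)) z 1
      + 35 / 8 * Sm F (𝓛.filter (fun L => m ∉ L)) z 2
      + 11 / 2 * Sm F (𝓛.filter (fun L => m ∉ L)) z 3
      + 3 * Sm F (𝓛.filter (fun L => m ∉ L)) z 4
      + Om F (𝓛.filter (fun L => m ∉ L)) z 1 + 2 * Om F (𝓛.filter (fun L => m ∉ L)) z 2
      + 4 * Om F (𝓛.filter (fun L => m ∉ L)) z 3) ≤ Phi F 𝓛 z := by
  refine le_trans ?_ (Phi_ge S z)
  refine add_le_add (small_z S) ?_
  simp only [Sm_eq, Om_eq, mul_sum, ← sum_add_distrib]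
  refine sum_le_sum fun C hC => ?_
  obtain ⟨hC1, hC2⟩ := mem_T.1 hC
  have hw := w_pos F C
  by_cases hm : z ∈ un F C
  · simp only [hm, hz, chi_eq_two hm, if_true, if_false, and_true, not_true_eq_false, and_false]
    rcases card_cases hC2.1 with h | h | h | h | h
    · simp only [h]; norm_num [al]; linarith
    · simp only [h]; norm_num [al]; linarith
    · simp only [h]; norm_num [al]; linarith
    · simp only [h]; norm_num [al]; linarith
    · have e1 : C.card ≠ 1 := by omega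
      have e2 : C.card ≠ 2 := by omega
      have e3 : C.card ≠ 3 := by omega
      have e4 : C.card ≠ 4 := by omega
      simp only [e1, e2, e3, e4, if_false, al_big h, al_big (by omega : 5 ≤ C.card + 1),
        al_big (by omega : 5 ≤ C.card + 2)]
      norm_num
  · have h1 : chi F z C = 1 := if_neg hm
    simp only [hm, h1, and_false, if_false, not_false_eq_true, and_true]
    rcases card_cases hC2.1 with h | h | h | h | h
    · simp only [h]; norm_num [al]
    · simp only [h]; norm_num [al]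
    · simp only [h]; norm_num [al]
    · simp only [h]; norm_num [al]; linarith
    · have e1 : C.card ≠ 1 := by omega
      have e2 : C.card ≠ 2 := by omega
      have e3 : C.card ≠ 3 := by omega
      simp only [e1, e2, e3, if_false, al_big h]
      norm_num

/-- the potential of the new position at `x` -/
theorem Phi_new {x : P} (hxm : x ≠ m) (hxz : x ≠ z) :
    Phi ((F.erase z).erase m) (𝓛.filter (fun L => m ∉ L)) x
      = ∑ C ∈ T F (𝓛.filter (fun L => m ∉ L)),
        if Conn (F.erase z) C then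
          al C.card * (if z ∈ un F C then 2 else 1) * (w F C * chi F x C)
        else 0 := by
  rw [Phi_after hxm hxz]
  refine sum_congr rfl fun C _ => ?_
  by_cases h : Conn (F.erase z) C
  · rw [if_pos h, if_pos h, chi]; ring
  · rw [if_neg h, if_neg h]

theorem PhiA_x (S : Sit F 𝓛 z m a b L₁ L₂) (hz : z ∉ L₂) {x : P} (hxm : x ≠ m) (hxz : x ≠ z) :
    1 / 2 + Phi ((F.erase z).erase m) (𝓛.filter (fun L => m ∉ L)) x ≤ Phi F 𝓛 x
      + (5 / 8 * Sv F (𝓛.filter (fun L => m ∉ L)) z 2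
        + 13 / 4 * Sv F (𝓛.filter (fun L => m ∉ L)) z 3
        + 3 * Sv F (𝓛.filter (fun L => m ∉ L)) z 4) := by
  have h1 := Phi_ge S x
  have h2 := small_x S x
  rw [if_neg hz] at h2
  rw [Phi_new hxm hxz]
  suffices h3 : ∑ C ∈ T F (𝓛.filter (fun L => m ∉ L)),
        (if Conn (F.erase z) C then
          al C.card * (if z ∈ un F C then 2 else 1) * (w F C * chi F x C)
        else 0) ≤ ∑ C ∈ T F (𝓛.filter (fun L => m ∉ L)),
      (al C.card * (w F C * chi F x C) + if z ∈ un F C then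
        (al (C.card + 1) * (1 / 2) ^ 2 + al (C.card + 2) * (1 / 2) ^ 3
          + (if z ∈ L₂ then al (C.card + 1) * (1 / 2) ^ 2 else 0)) * (w F C * chi F x C)
        else 0) + (5 / 8 * Sv F (𝓛.filter (fun L => m ∉ L)) z 2
        + 13 / 4 * Sv F (𝓛.filter (fun L => m ∉ L)) z 3
        + 3 * Sv F (𝓛.filter (fun L => m ∉ L)) z 4) by linarith
  simp only [Sv_eq, mul_sum, ← sum_add_distrib]
  refine sum_le_sum fun C hC => ?_
  obtain ⟨hC1, hC2⟩ := mem_T.1 hC
  have hw := w_pos F C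
  have hx := chi_pos F x C
  have hx2 : w F C * chi F x C ≤ w F C * 2 := by
    gcongr
    unfold chi; split_ifs <;> norm_num
  have hp : 0 < w F C * chi F x C := by positivity
  set q := w F C * chi F x C with hq
  by_cases hm : z ∈ un F C
  · simp only [hm, hz, if_true, if_false, and_true]
    by_cases hc : Conn (F.erase z) C
    · simp only [hc, if_true, and_true]
      rcases card_cases hC2.1 with h | h | h | h | h
      · simp only [h]; norm_num [al]; linarith
      · simp only [h]; norm_num [al]; linarith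
      · simp only [h]; norm_num [al]; linarith
      · simp only [h]; norm_num [al]; linarith
      · have e2 : C.card ≠ 2 := by omega
        have e3 : C.card ≠ 3 := by omega
        have e4 : C.card ≠ 4 := by omega
        simp only [e2, e3, e4, if_false, al_big h, al_big (by omega : 5 ≤ C.card + 1),
          al_big (by omega : 5 ≤ C.card + 2)]
        norm_num
    · simp only [hc, if_false, and_false]
      have := al_nonneg C.card
      have := al_nonneg (C.card + 1)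
      have := al_nonneg (C.card + 2)
      norm_num
      positivity
  · simp only [hm, if_false, and_false, conn_of_notMem_un hm, hC2, if_true]
    norm_num

theorem PhiB_x (S : Sit F 𝓛 z m a b L₁ L₂) (hz : z ∈ L₂) {x : P} (hxm : x ≠ m) (hxz : x ≠ z) :
    3 / 8 + Phi ((F.erase z).erase m) (𝓛.filter (fun L => m ∉ L)) x ≤ Phi F 𝓛 x
      + (5 / 2 * Sv F (𝓛.filter (fun L => m ∉ L)) z 3
        + 3 * Sv F (𝓛.filter (fun L => m ∉ L)) z 4) := by
  have h1 := Phi_ge S x
  have h2 := small_x S x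
  rw [if_pos hz] at h2
  rw [Phi_new hxm hxz]
  suffices h3 : ∑ C ∈ T F (𝓛.filter (fun L => m ∉ L)),
        (if Conn (F.erase z) C then
          al C.card * (if z ∈ un F C then 2 else 1) * (w F C * chi F x C)
        else 0) ≤ ∑ C ∈ T F (𝓛.filter (fun L => m ∉ L)),
      (al C.card * (w F C * chi F x C) + if z ∈ un F C then
        (al (C.card + 1) * (1 / 2) ^ 2 + al (C.card + 2) * (1 / 2) ^ 3
          + (if z ∈ L₂ then al (C.card + 1) * (1 / 2) ^ 2 else 0)) * (w F C * chi F x C)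
        else 0) + (5 / 2 * Sv F (𝓛.filter (fun L => m ∉ L)) z 3
        + 3 * Sv F (𝓛.filter (fun L => m ∉ L)) z 4) by linarith
  simp only [Sv_eq, mul_sum, ← sum_add_distrib]
  refine sum_le_sum fun C hC => ?_
  obtain ⟨hC1, hC2⟩ := mem_T.1 hC
  have hw := w_pos F C
  have hx := chi_pos F x C
  have hx2 : w F C * chi F x C ≤ w F C * 2 := by
    gcongr
    unfold chi; split_ifs <;> norm_num
  have hp : 0 < w F C * chi F x C := by positivity
  set q := w F C * chi F x C with hq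
  by_cases hm : z ∈ un F C
  · simp only [hm, hz, if_true, and_true]
    by_cases hc : Conn (F.erase z) C
    · simp only [hc, if_true, and_true]
      rcases card_cases hC2.1 with h | h | h | h | h
      · simp only [h]; norm_num [al]; linarith
      · simp only [h]; norm_num [al]; linarith
      · simp only [h]; norm_num [al]; linarith
      · simp only [h]; norm_num [al]; linarith
      · have e3 : C.card ≠ 3 := by omega
        have e4 : C.card ≠ 4 := by omega
        simp only [e3, e4, if_false, al_big h, al_big (by omega : 5 ≤ C.card + 1),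
          al_big (by omega : 5 ≤ C.card + 2)]
        norm_num
    · simp only [hc, if_false, and_false]
      have := al_nonneg C.card
      have := al_nonneg (C.card + 1)
      have := al_nonneg (C.card + 2)
      norm_num
      positivity
  · simp only [hm, if_false, and_false, conn_of_notMem_un hm, hC2, if_true]
    norm_num

theorem Sv_le_Sm (F : Finset P) (𝓜 : Finset (Finset P)) (y : P) (k : ℕ) :
    Sv F 𝓜 y k ≤ Sm F 𝓜 y k := by
  rw [Sv, Sm]
  refine sum_le_sum_of_subset_of_nonneg ?_ fun C _ _ => by have := w_pos F C; positivity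
  intro C hC
  rw [mem_filter] at hC ⊢
  exact ⟨hC.1, conn_mono (erase_subset _ _) hC.2.1, hC.2.2⟩

theorem Sv_nonneg (F : Finset P) (𝓜 : Finset (Finset P)) (y : P) (k : ℕ) : 0 ≤ Sv F 𝓜 y k := by
  rw [Sv]
  exact sum_nonneg fun C _ => by have := w_pos F C; positivity

/-- the potential part, in the situation `Sit` -/
theorem pot_of_sit (S : Sit F 𝓛 z m a b L₁ L₂)
    (hcore : Core F (𝓛.filter (fun L => m ∉ L)) z) (hpot : ∀ x ∈ F, Phi F 𝓛 x < 7 / 4) :
    ∀ x ∈ (F.erase z).erase m,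
      Phi ((F.erase z).erase m) (𝓛.filter (fun L => m ∉ L)) x < 7 / 4 := by
  intro x hx
  rw [mem_erase, mem_erase] at hx
  have p1 := hpot z S.hzF
  have p2 := hpot x hx.2.2
  have q1 := Sm_nonneg F (𝓛.filter (fun L => m ∉ L)) z 1
  have q2 := Sm_nonneg F (𝓛.filter (fun L => m ∉ L)) z 2
  have q3 := Sm_nonneg F (𝓛.filter (fun L => m ∉ L)) z 3
  have q4 := Sm_nonneg F (𝓛.filter (fun L => m ∉ L)) z 4
  have r1 := Om_nonneg F (𝓛.filter (fun L => m ∉ L)) z 1
  have r2 := Om_nonneg F (𝓛.filter (fun L => m ∉ L)) z 2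
  have r3 := Om_nonneg F (𝓛.filter (fun L => m ∉ L)) z 3
  have s2 := Sv_le_Sm F (𝓛.filter (fun L => m ∉ L)) z 2
  have s3 := Sv_le_Sm F (𝓛.filter (fun L => m ∉ L)) z 3
  have s4 := Sv_le_Sm F (𝓛.filter (fun L => m ∉ L)) z 4
  have t2 := Sv_nonneg F (𝓛.filter (fun L => m ∉ L)) z 2
  have t3 := Sv_nonneg F (𝓛.filter (fun L => m ∉ L)) z 3
  have t4 := Sv_nonneg F (𝓛.filter (fun L => m ∉ L)) z 4
  by_cases hz : z ∈ L₂
  · have h1 := PhiB_z S hz
    have h2 := PhiB_x S hz hx.1 hx.2.1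
    have h3 := hcore (by linarith)
    linarith
  · have h1 := PhiA_z S hz
    have h2 := PhiA_x S hz hx.1 hx.2.1
    have h3 := hcore (by linarith)
    linarith

end

/-- the situation arises (up to the order of the two lines) -/
theorem exists_sit {𝓛 : Finset (Finset P)} {F : Finset P} (h : Inv F 𝓛) {z m : P} (hz : z ∈ F)
    (hm : m ∈ F.erase z) {L₁ L₂ : Finset P} (h₁ : L₁ ∈ 𝓛) (h₂ : L₂ ∈ 𝓛)
    (hm₁ : m ∈ L₁) (hm₂ : m ∈ L₂) (hc₁ : (L₁ ∩ F.erase z).card = 2)
    (hc₂ : (L₂ ∩ F.erase z).card = 2) (hne : L₁ ∩ F.erase z ≠ L₂ ∩ F.erase z) :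
    ∃ a b K₁ K₂, Sit F 𝓛 z m a b K₁ K₂ := by
  have hmF := mem_of_mem_erase hm
  obtain ⟨a, ha⟩ := Q39.pair_of hc₁ (mem_inter.2 ⟨hm₁, hm⟩)
  obtain ⟨b, hb⟩ := Q39.pair_of hc₂ (mem_inter.2 ⟨hm₂, hm⟩)
  have hn : L₁ ≠ L₂ := fun e => hne (by rw [e])
  by_cases z₁ : z ∈ L₁
  · exact ⟨a, b, L₁, L₂, hz, hmF, ne_of_mem_erase hm, h₁, h₂, hm₁, hm₂, z₁, ha, hb, hn⟩
  · by_cases z₂ : z ∈ L₂
    · exact ⟨b, a, L₂, L₁, hz, hmF, ne_of_mem_erase hm, h₂, h₁, hm₂, hm₁, z₂, hb, ha, hn.symm⟩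
    · exfalso
      rw [inter_erase_of_notMem z₁] at hc₁ hne
      rw [inter_erase_of_notMem z₂] at hc₂ hne
      exact hne (h.nowin L₁ h₁ L₂ h₂ hc₁ hc₂ ⟨m, mem_inter.2 ⟨mem_inter.2 ⟨hm₁, hm₂⟩, hmF⟩⟩)

/-- the answer, from the core inequality at one place -/
theorem answer_of {𝓛 : Finset (Finset P)} (F : Finset P)
    (h : Inv F 𝓛) (z : P) (hz : z ∈ F) (hq : ∀ L ∈ 𝓛, z ∈ L → (L ∩ F).card ≠ 2)
    (m : P) (hm : m ∈ F.erase z) (L₁ L₂ : Finset P) (h₁ : L₁ ∈ 𝓛) (h₂ : L₂ ∈ 𝓛)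
    (hm₁ : m ∈ L₁) (hm₂ : m ∈ L₂) (hc₁ : (L₁ ∩ F.erase z).card = 2)
    (hc₂ : (L₂ ∩ F.erase z).card = 2) (hne : L₁ ∩ F.erase z ≠ L₂ ∩ F.erase z)
    (hcore : Core F (𝓛.filter (fun L => m ∉ L)) z) :
    Inv ((F.erase z).erase m) (𝓛.filter (fun L => m ∉ L)) := by
  obtain ⟨a, b, K₁, K₂, S⟩ := exists_sit h hz hm h₁ h₂ hm₁ hm₂ hc₁ hc₂ hne
  refine ⟨pot_of_sit S hcore h.pot, ?_, answer_nowin F h z hz m hm L₁ L₂ h₁ h₂ hm₁ hm₂ hc₁ hc₂ hne⟩
  intro L hL
  rw [mem_filter] at hL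
  rw [inter_erase_of_notMem hL.2]
  by_cases hzL : z ∈ L
  · have h3 := h.two_le L hL.1
    have h4 := hq L hL.1 hzL
    have h5 : L ∩ F.erase z = (L ∩ F).erase z := by
      ext x; simp only [mem_inter, mem_erase]; tauto
    rw [h5, card_erase_of_mem (mem_inter.2 ⟨hzL, hz⟩)]
    omega
  · rw [inter_erase_of_notMem hzL]
    exact h.two_le L hL.1

end A1

/-- Quiet move `z` that creates a double threat at `m`: Breaker answers `m`
(`core` as a hypothesis). -/
theorem answer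
    (hcore : ∀ {𝒢 𝓛 : Finset (Finset P)}, Geom 𝒢 → 𝓛 ⊆ 𝒢 → ∀ (F : Finset P) (m : P),
      m ∈ F →
      2 * Sm F 𝓛 m 1 + 4 * Sm F 𝓛 m 2 + 11 / 2 * Sm F 𝓛 m 3 + 3 * Sm F 𝓛 m 4
        + Om F 𝓛 m 1 + 2 * Om F 𝓛 m 2 + 4 * Om F 𝓛 m 3 ≤ 5 / 4 →
      5 / 2 * Sv F 𝓛 m 3 + 3 * Sv F 𝓛 m 4 ≤ 1 / 4)
    {𝒢 𝓛 : Finset (Finset P)} (hG : Geom 𝒢) (hL : 𝓛 ⊆ 𝒢) (F : Finset P)
    (h : Inv F 𝓛) (z : P) (hz : z ∈ F) (hq : ∀ L ∈ 𝓛, z ∈ L → (L ∩ F).card ≠ 2)
    (m : P) (hm : m ∈ F.erase z) (L₁ L₂ : Finset P) (h₁ : L₁ ∈ 𝓛) (h₂ : L₂ ∈ 𝓛)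
    (hm₁ : m ∈ L₁) (hm₂ : m ∈ L₂) (hc₁ : (L₁ ∩ F.erase z).card = 2)
    (hc₂ : (L₂ ∩ F.erase z).card = 2) (hne : L₁ ∩ F.erase z ≠ L₂ ∩ F.erase z) :
    Inv ((F.erase z).erase m) (𝓛.filter (fun L => m ∉ L)) :=
  A1.answer_of F h z hz hq m hm L₁ L₂ h₁ h₂ hm₁ hm₂ hc₁ hc₂ hne
    (hcore hG ((filter_subset _ _).trans hL) F z hz)

end Torus103
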